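import Mathlib

/-!
# MP_0d9be2_nt: continuation of `L(E, s)` and hyper-elementary extensions: definitions, statements

Theorem (`Main_S`): `M/K` a finite Galois extension of number fields, `E/K` elliptic. If `L(E/F, s)`
has a meromorphic continuation for every intermediate field `F` with `Gal(M/F)` hyper-elementary,
then `L(E/K, s)` has one. The pieces: `Solomon_S`, `Primes_S`, `Curves_S`, `Minimal_S`, `Conv_S`.
-/

set_option autoImplicit false

open scoped NumberField
open IsDedekindDomain

namespace Pool.Agent.MP_0d9be2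

section defs

variable {K : Type} [Field K] [NumberField K]

/-- The number of affine points of the reduction of `W` modulo the prime `p`. -/
noncomputable def affPts (W : WeierstrassCurve (𝓞 K)) (p : HeightOneSpectrum (𝓞 K)) : ℕ :=
  Nat.card {xy : (𝓞 K ⧸ p.asIdeal) × (𝓞 K ⧸ p.asIdeal) //
    (W.map (Ideal.Quotient.mk p.asIdeal)).toAffine.Equation xy.1 xy.2}

open Classical in
/-- The Euler factor of the model `W` at the prime `p`. -/
noncomputable def factor (W : WeierstrassCurve (𝓞 K)) (p : HeightOneSpectrum (𝓞 K)) (s : ℂ) : ℂ :=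
  (1 - ((Ideal.absNorm p.asIdeal : ℂ) - (affPts W p : ℂ)) * (Ideal.absNorm p.asIdeal : ℂ) ^ (-s)
    + (if W.Δ ∈ p.asIdeal then 0 else (Ideal.absNorm p.asIdeal : ℂ))
      * (Ideal.absNorm p.asIdeal : ℂ) ^ (-2 * s))⁻¹

/-- `W` is an integral Weierstrass model of `E`. -/
def IsModel (E : WeierstrassCurve K) (W : WeierstrassCurve (𝓞 K)) : Prop :=
  ∃ C : WeierstrassCurve.VariableChange K, C • W.map (algebraMap (𝓞 K) K) = E

/-- `W` is an integral Weierstrass model of `E` which is minimal at `p`. -/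
def IsMinimalAt (E : WeierstrassCurve K) (W : WeierstrassCurve (𝓞 K))
    (p : HeightOneSpectrum (𝓞 K)) : Prop :=
  IsModel E W ∧ ∀ W' : WeierstrassCurve (𝓞 K), IsModel E W' →
    ∀ n : ℕ, W.Δ ∈ p.asIdeal ^ n → W'.Δ ∈ p.asIdeal ^ n

/-- `L(E/K, s)`, the Euler product for `Re s > 2`, has a meromorphic continuation to `ℂ`. -/
def Continues (E : WeierstrassCurve K) : Prop :=
  ∀ W : HeightOneSpectrum (𝓞 K) → WeierstrassCurve (𝓞 K), (∀ p, IsMinimalAt E (W p) p) →
    ∃ f : ℂ → ℂ, MeromorphicOn f Set.univ ∧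
      ∀ s : ℂ, 2 < s.re → f s = ∏' p : HeightOneSpectrum (𝓞 K), factor (W p) p s

end defs

/-- A finite group with a normal cyclic subgroup `C` of order prime to a prime `p` and of index a
power of `p`. -/
def IsHyperElementary (G : Type) [Group G] : Prop :=
  ∃ (p : ℕ) (C : Subgroup G), p.Prime ∧ C.Normal ∧ IsCyclic C ∧ Nat.Coprime p (Nat.card C) ∧
    ∃ k : ℕ, C.index = p ^ k

/-- The main theorem. -/
def Main_S : Prop :=
  ∀ (K M : Type) [Field K] [NumberField K] [Field M] [NumberField M] [Algebra K M] [IsGalois K M]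
    (E : WeierstrassCurve K) [E.IsElliptic],
    (∀ F : IntermediateField K M, IsHyperElementary Gal(M/F) →
      Continues (E.map (algebraMap K F))) → Continues E

/-- PART 1. Solomon's induction theorem, in terms of fixed points. -/
def Solomon_S : Prop :=
  ∀ (G : Type) [Group G] [Finite G], ∃ (T : Finset (Subgroup G)) (n : Subgroup G → ℤ),
    (∀ H ∈ T, IsHyperElementary H) ∧
    ∀ g : G, ∑ H ∈ T, n H * (Nat.card {x : G ⧸ H // g • x = x} : ℤ) = 1

/-- PART 2. A relation of permutation characters gives a relation for the numbers of primes of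
each residue degree. -/
def Primes_S : Prop :=
  ∀ (K M : Type) [Field K] [NumberField K] [Field M] [NumberField M] [Algebra K M] [IsGalois K M]
    (T : Finset (Subgroup Gal(M/K))) (n : Subgroup Gal(M/K) → ℤ),
    (∀ g : Gal(M/K), ∑ H ∈ T, n H * (Nat.card {x : Gal(M/K) ⧸ H // g • x = x} : ℤ) = 1) →
    ∃ S : Set (HeightOneSpectrum (𝓞 K)), S.Finite ∧ ∀ v : HeightOneSpectrum (𝓞 K), v ∉ S →
      ∀ f : ℕ, ∑ H ∈ T, n H *
        (Nat.card {w : HeightOneSpectrum (𝓞 (IntermediateField.fixedField H)) //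
          w.asIdeal.LiesOver v.asIdeal ∧ w.asIdeal.inertiaDeg (𝓞 K) = f} : ℤ) =
        if f = 1 then 1 else 0

/-- PART 3. Outside a finite set of primes `v` of `K` the Euler factor of `E` at a prime `w` over
`v` of an extension `F` depends only on the residue degree. -/
def Curves_S : Prop :=
  ∀ (K : Type) [Field K] [NumberField K] (E : WeierstrassCurve K) [E.IsElliptic],
    ∃ S : Set (HeightOneSpectrum (𝓞 K)), S.Finite ∧ ∀ v : HeightOneSpectrum (𝓞 K), v ∉ S →
      ∃ Φ : ℕ → ℂ → ℂ, ∀ (F : Type) [Field F] [NumberField F] [Algebra K F]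
        (w : HeightOneSpectrum (𝓞 F)) (W : WeierstrassCurve (𝓞 F)),
        w.asIdeal.LiesOver v.asIdeal → IsMinimalAt (E.map (algebraMap K F)) W w →
        ∀ s : ℂ, factor W w s = Φ (w.asIdeal.inertiaDeg (𝓞 K)) s

/-- PART 3b. Models that are minimal at a given prime exist. -/
def Minimal_S : Prop :=
  ∀ (K : Type) [Field K] [NumberField K] (E : WeierstrassCurve K) [E.IsElliptic]
    (p : HeightOneSpectrum (𝓞 K)), ∃ W : WeierstrassCurve (𝓞 K), IsMinimalAt E W p

/-- PART 4a. Convergence of the Euler product for `Re s > 2`. -/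
def Conv_S : Prop :=
  ∀ (K : Type) [Field K] [NumberField K]
    (W : HeightOneSpectrum (𝓞 K) → WeierstrassCurve (𝓞 K)) (s : ℂ), 2 < s.re →
    (Multipliable fun p : HeightOneSpectrum (𝓞 K) => factor (W p) p s) ∧
    (∀ p, factor (W p) p s ≠ 0) ∧ ∏' p : HeightOneSpectrum (𝓞 K), factor (W p) p s ≠ 0

end Pool.Agent.MP_0d9be2
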