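import Pool.Agent.Lib.MP_0d9be2_nt.H15.Main

/-!
# MP_0d9be2_nt, PART 5: quadratic twists. Definitions and statements

`short A B` is `y² = x³ + A x + B`; its quadratic twist by `d` is `short (d² A) (d³ B)`.
-/

set_option autoImplicit false

open scoped NumberField
open IsDedekindDomain

namespace Pool.Agent.MP_0d9be2

/-- The curve `y² = x³ + A x + B`. -/
def short {R : Type} [CommRing R] (A B : R) : WeierstrassCurve R := ⟨0, 0, 0, A, B⟩

/-- `E'` is the quadratic twist of `E` by `d`, up to changes of variables over `K`. -/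
def IsTwist {K : Type} [Field K] (d : K) (E E' : WeierstrassCurve K) : Prop :=
  ∃ (A B : K) (C C' : WeierstrassCurve.VariableChange K),
    C • E = short A B ∧ C' • E' = short (d ^ 2 * A) (d ^ 3 * B)

/-- The number of affine points of a Weierstrass curve over a ring. -/
noncomputable def cnt {k : Type} [CommRing k] (W : WeierstrassCurve k) : ℕ :=
  Nat.card {xy : k × k // W.toAffine.Equation xy.1 xy.2}

/-- PART 5.1. The number of points over the quadratic extension of a finite field. -/
def Quad_S : Prop :=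
  ∀ (k k' : Type) [Field k] [Finite k] [Field k'] [Finite k'] [Algebra k k']
    (W : WeierstrassCurve k) [W.IsElliptic], (2 : k) ≠ 0 → Module.finrank k k' = 2 →
    (cnt (W.map (algebraMap k k')) : ℤ) + 1
      = ((cnt W : ℤ) + 1) * (2 * (Nat.card k : ℤ) + 2 - ((cnt W : ℤ) + 1))

/-- PART 5.2. The local identity: at almost all primes `v` of `K` the Euler factors over the
quadratic extension `F = K(√d)` are those of the curve and of its twist. -/
def LocalTwist_S : Prop :=
  ∀ (K F : Type) [Field K] [NumberField K] [Field F] [NumberField F] [Algebra K F] (A B d : 𝓞 K),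
    4 * A ^ 3 + 27 * B ^ 2 ≠ 0 → Module.finrank K F = 2 →
    (∃ x : F, x ^ 2 = algebraMap K F (algebraMap (𝓞 K) K d)) →
    (¬ ∃ x : K, x ^ 2 = algebraMap (𝓞 K) K d) →
    ∃ S : Set (HeightOneSpectrum (𝓞 K)), S.Finite ∧ ∀ v, v ∉ S →
      ∀ (W W' : WeierstrassCurve (𝓞 K)) (V : HeightOneSpectrum (𝓞 F) → WeierstrassCurve (𝓞 F)),
        IsMinimalAt (short A B |>.map (algebraMap (𝓞 K) K)) W v →
        IsMinimalAt (short (d ^ 2 * A) (d ^ 3 * B) |>.map (algebraMap (𝓞 K) K)) W' v →
        (∀ w, IsMinimalAt ((short A B |>.map (algebraMap (𝓞 K) K)).map (algebraMap K F))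
          (V w) w) →
        ∀ s : ℂ, ∏ w ∈ H15.fib F v, factor (V w) w s = factor W v s * factor W' v s

/-- PART 5.3. The twist step: if `L(E/K, s)` and `L(E/K(√d), s)` continue, so does the `L`-series
of the quadratic twist of `E` by `d`. -/
def Half_S : Prop :=
  ∀ (K F : Type) [Field K] [NumberField K] [Field F] [NumberField F] [Algebra K F]
    (E E' : WeierstrassCurve K) [E.IsElliptic] [E'.IsElliptic] (d : K), d ≠ 0 → IsTwist d E E' →
    Module.finrank K F = 2 → (∃ x : F, x ^ 2 = algebraMap K F d) → (¬ ∃ x : K, x ^ 2 = d) →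
    Continues E → Continues (E.map (algebraMap K F)) → Continues E'

/-- PART 5.4. Curves with the same `j`-invariant `≠ 0, 1728` are quadratic twists of each other. -/
def SameJ_S : Prop :=
  ∀ (K : Type) [Field K] [NumberField K] (E E' : WeierstrassCurve K) [E.IsElliptic]
    [E'.IsElliptic], E.j = E'.j → E.j ≠ 0 → E.j ≠ 1728 → ∃ d : K, d ≠ 0 ∧ IsTwist d E E'

/-- PART 5.5. The main theorem with a twist. `M/K` finite Galois, `E'` the quadratic twist by `d`
of `E`, `√d ∈ M`. If `L(E/F, s)` continues for every intermediate field `F` with hyper-elementary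
`Gal(M/F)`, then `L(E'/K, s)` continues. (`d = 1` is `Main_S`.) -/
def Main2_S : Prop :=
  ∀ (K M : Type) [Field K] [NumberField K] [Field M] [NumberField M] [Algebra K M] [IsGalois K M]
    (E E' : WeierstrassCurve K) [E.IsElliptic] [E'.IsElliptic] (d : K), d ≠ 0 → IsTwist d E E' →
    (∃ x : M, x ^ 2 = algebraMap K M d) →
    (∀ F : IntermediateField K M, IsHyperElementary Gal(M/F) →
      Continues (E.map (algebraMap K F))) → Continues E'

/-- PART 5.6. One curve for each `j`-invariant. -/
def OneCurve_S : Prop :=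
  (∀ (K : Type) [Field K] [NumberField K] (j : K), j ≠ 0 → j ≠ 1728 →
    Continues (WeierstrassCurve.ofJNe0Or1728 j)) →
  ∀ (K : Type) [Field K] [NumberField K] (E : WeierstrassCurve K) [E.IsElliptic],
    E.j ≠ 0 → E.j ≠ 1728 → Continues E

end Pool.Agent.MP_0d9be2
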