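import Pool.Agent.Lib.MP_0d9be2_nt.H15.Main
import Pool.Agent.Lib.MP_0d9be2_nt.H36.SolomonP

/-!
# MP_0d9be2_nt, Theorem S: almost all places split. Definitions and statements

`Split_S`: for `K₁/K` finite Galois and `m ≥ 1` there is a finite Galois extension `M/K` containing
`K₁` such that for every `p`-hyperelementary subgroup `H` of `Gal(M/K)`, with fixed field `F`, and
every place `v` of `K`, the places `w` of `F` over `v` that do not split completely in `F K₁` have
total local degree at most `[F : K] / m`.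

Parts: (A) `H36.group_lemma` (done); (B1, B2) `Elements_S`; (B3) `Inert_S`; (B4)
`H7.B4.card_stab_le` (done); (B) `Field_S`; (C) `Count_S`, `CountInf_S`; (D) `Split_S`.
-/

set_option autoImplicit false

open scoped NumberField Pointwise
open IsDedekindDomain NumberField

namespace Pool.Agent.MP_0d9be2

section defs

/-- `L` is a compositum of the extensions `F` and `K₁` of `K`. -/
def IsCompositum (K K₁ F L : Type) [Field K] [Field K₁] [Field F] [Field L] [Algebra K K₁]
    [Algebra K F] [Algebra K L] [Algebra K₁ L] [Algebra F L] : Prop :=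
  IsScalarTower K K₁ L ∧ IsScalarTower K F L ∧
    Algebra.adjoin F (Set.range (algebraMap K₁ L)) = ⊤

/-- The finite place `w` of `F` splits completely in the compositum `F K₁`. -/
def SplitsAt (K K₁ F : Type) [Field K] [Field K₁] [Field F] [Algebra K K₁] [Algebra K F]
    (w : HeightOneSpectrum (𝓞 F)) : Prop :=
  ∀ (L : Type) [Field L] [NumberField L] [Algebra K L] [Algebra K₁ L] [Algebra F L],
    IsCompositum K K₁ F L → ∀ W : HeightOneSpectrum (𝓞 L), W.asIdeal.LiesOver w.asIdeal →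
      W.asIdeal.ramificationIdx (𝓞 F) = 1 ∧ W.asIdeal.inertiaDeg (𝓞 F) = 1

/-- The infinite place `w` of `F` splits completely in the compositum `F K₁`. -/
def SplitsAtInf (K K₁ F : Type) [Field K] [Field K₁] [Field F] [Algebra K K₁] [Algebra K F]
    (w : InfinitePlace F) : Prop :=
  ∀ (L : Type) [Field L] [NumberField L] [Algebra K L] [Algebra K₁ L] [Algebra F L],
    IsCompositum K K₁ F L → ∀ W : InfinitePlace L, W.comap (algebraMap F L) = w →
      W.IsUnramified F

open Classical in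
/-- The total local degree of the places of `F` over `v` that do not split in `F K₁`. -/
noncomputable def badDeg (K K₁ F : Type) [Field K] [NumberField K] [Field K₁] [Field F]
    [NumberField F] [Algebra K K₁] [Algebra K F] (v : HeightOneSpectrum (𝓞 K)) : ℕ :=
  ∑ w ∈ (H15.fib F v).filter (fun w => ¬ SplitsAt K K₁ F w),
    w.asIdeal.ramificationIdx (𝓞 K) * w.asIdeal.inertiaDeg (𝓞 K)

/-- The number of the infinite places of `F` over `v` that do not split in `F K₁` (they are real,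
and the local degree is one). -/
noncomputable def badInf (K K₁ F : Type) [Field K] [Field K₁] [Field F]
    [Algebra K K₁] [Algebra K F] (v : InfinitePlace K) : ℕ :=
  Nat.card {w : InfinitePlace F // w.comap (algebraMap K F) = v ∧ ¬ SplitsAtInf K K₁ F w}

end defs

/-- B1 and B2. Primes with trivial stabiliser, and integers which are uniformizers at one of them
and are prime to all the conjugates of the others. -/
def Elements_S : Prop :=
  ∀ (K K₁ : Type) [Field K] [NumberField K] [Field K₁] [NumberField K₁] [Algebra K K₁]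
    [IsGalois K K₁] (l : ℕ), l.Prime → ∀ r : ℕ,
    ∃ (P : Fin r → HeightOneSpectrum (𝓞 K₁)) (α : Fin r → 𝓞 K₁),
      (∀ i, (l : 𝓞 K₁) ∉ (P i).asIdeal) ∧
      (∀ i, α i ∈ (P i).asIdeal ∧ α i ∉ (P i).asIdeal ^ 2) ∧
      (∀ (i j : Fin r) (σ : Gal(K₁/K)), ¬ (σ = 1 ∧ i = j) → σ • α j ∉ (P i).asIdeal) ∧
      (∀ i, ∃ d : 𝓞 K₁, α i = 1 + (l : 𝓞 K₁) ^ (l + 1) * d)

/-- B3. Elements of the inertia group which move only one of the roots. -/
def Inert_S : Prop :=
  ∀ (K₁ M : Type) [Field K₁] [NumberField K₁] [Field M] [NumberField M] [Algebra K₁ M]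
    [IsGalois K₁ M] (l : ℕ), l.Prime → ∀ (ζ : 𝓞 K₁), IsPrimitiveRoot ζ l →
    ∀ (ι : Type) (b : ι → 𝓞 M) (c : ι → 𝓞 K₁), (∀ i, b i ^ l = algebraMap (𝓞 K₁) (𝓞 M) (c i)) →
    (∀ g : Gal(M/K₁), (∀ i, g • b i = b i) → g = 1) →
    ∀ (P : HeightOneSpectrum (𝓞 K₁)) (i₀ : ι), (l : 𝓞 K₁) ∉ P.asIdeal →
    c i₀ ∈ P.asIdeal → c i₀ ∉ P.asIdeal ^ 2 → (∀ i, i ≠ i₀ → c i ∉ P.asIdeal) →
    ∃ n : Gal(M/K₁), n • b i₀ ≠ b i₀ ∧ ∀ i, i ≠ i₀ → n • b i = b i

/-- B. The fields. -/
def Field_S : Prop :=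
  ∀ (K K₁ : Type) [Field K] [NumberField K] [Field K₁] [NumberField K₁] [Algebra K K₁]
    [IsGalois K K₁], ∃ l B : ℕ, l.Prime ∧ ∀ r : ℕ,
    ∃ (M : Type) (_ : Field M) (_ : NumberField M) (_ : Algebra K M) (_ : Algebra K₁ M)
      (_ : IsScalarTower K K₁ M) (_ : IsGalois K M) (N : Subgroup Gal(M/K)),
      N.Normal ∧ (∀ g ∈ N, ∀ x : K₁, g (algebraMap K₁ M x) = algebraMap K₁ M x) ∧
      (∀ a ∈ N, ∀ b ∈ N, a * b = b * a) ∧ (∀ a ∈ N, a ^ l = 1) ∧ ¬ l ∣ N.index ∧
      (∀ g : Gal(M/K), g ∉ N →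
        l ^ r ≤ Nat.card {x : Gal(M/K) // ∃ n ∈ N, x = n * g * n⁻¹}) ∧
      ∀ W : HeightOneSpectrum (𝓞 M),
        Nat.card (MulAction.stabilizer Gal(M/K) W.asIdeal) ≤ B

/-- C. The count at the finite places. -/
def Count_S : Prop :=
  ∀ (K K₁ M : Type) [Field K] [NumberField K] [Field K₁] [NumberField K₁] [Field M]
    [NumberField M] [Algebra K K₁] [Algebra K M] [Algebra K₁ M] [IsScalarTower K K₁ M]
    [IsGalois K M] [IsGalois K K₁] (H : Subgroup Gal(M/K)) (v : HeightOneSpectrum (𝓞 K))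
    (W : HeightOneSpectrum (𝓞 M)), W.asIdeal.LiesOver v.asIdeal →
    ∀ S : Finset Gal(M/K),
    (∀ g : Gal(M/K), g • W.asIdeal = W.asIdeal →
      (∃ x : K₁, g (algebraMap K₁ M x) ≠ algebraMap K₁ M x) → g ∈ S) →
    badDeg K K₁ (IntermediateField.fixedField H) v ≤
      ∑ g ∈ S, Nat.card {x : Gal(M/K) ⧸ H // g • x = x}

/-- C. The count at the infinite places. -/
def CountInf_S : Prop :=
  ∀ (K K₁ M : Type) [Field K] [NumberField K] [Field K₁] [NumberField K₁] [Field M]
    [NumberField M] [Algebra K K₁] [Algebra K M] [Algebra K₁ M] [IsScalarTower K K₁ M]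
    [IsGalois K M] [IsGalois K K₁] (H : Subgroup Gal(M/K)) (v : InfinitePlace K)
    (W : InfinitePlace M), W.comap (algebraMap K M) = v →
    ∀ S : Finset Gal(M/K),
    (∀ g : Gal(M/K), g • W = W →
      (∃ x : K₁, g (algebraMap K₁ M x) ≠ algebraMap K₁ M x) → g ∈ S) →
    badInf K K₁ (IntermediateField.fixedField H) v ≤
      ∑ g ∈ S, Nat.card {x : Gal(M/K) ⧸ H // g • x = x}

/-- D. Almost all places split. -/
def Split_S : Prop :=
  ∀ (K K₁ : Type) [Field K] [NumberField K] [Field K₁] [NumberField K₁] [Algebra K K₁]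
    [IsGalois K K₁] (m : ℕ),
    ∃ (M : Type) (_ : Field M) (_ : NumberField M) (_ : Algebra K M) (_ : Algebra K₁ M)
      (_ : IsScalarTower K K₁ M) (_ : IsGalois K M),
      ∀ (p : ℕ), p.Prime → ∀ H : Subgroup Gal(M/K), H36.IsPHyper p H →
        (∀ v : HeightOneSpectrum (𝓞 K), m * badDeg K K₁ (IntermediateField.fixedField H) v ≤
          Module.finrank K (IntermediateField.fixedField H)) ∧
        (∀ v : InfinitePlace K, m * badInf K K₁ (IntermediateField.fixedField H) v ≤
          Module.finrank K (IntermediateField.fixedField H))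

end Pool.Agent.MP_0d9be2
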