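import Pool.Agent.Lib.MP_0d9be2_nt.Defs

/-!
Solomon's induction theorem in the form: for a finite group `G` the constant function `1` is an
integral combination of the permutation characters of the cosets of hyperelementary subgroups.
-/

set_option autoImplicit false

namespace Pool.Agent.Lib.MP_0d9be2_nt

open MulAction

/-- A group is hyperelementary if, for some prime `p`, it has a normal cyclic subgroup of order
prime to `p` whose index is a power of `p`. -/
def IsHyperelementary (H : Type*) [Group H] : Prop :=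
  ∃ p : ℕ, p.Prime ∧ ∃ C : Subgroup H, C.Normal ∧ IsCyclic C ∧ ¬ p ∣ Nat.card C ∧
    ∃ k : ℕ, C.index = p ^ k

theorem subgroupComap_inj {H K : Type*} [Group H] [Group K] (f : H →* K)
    (hf : Function.Injective f) (C : Subgroup K) : Function.Injective (f.subgroupComap C) := by
  intro a b hab
  have h1 : f (a : H) = f (b : H) := congrArg (Subtype.val) hab
  exact Subtype.ext (hf h1)

theorem IsHyperelementary.of_injective {H K : Type*} [Group H] [Group K] (f : H →* K)
    (hf : Function.Injective f) (hK : IsHyperelementary K) : IsHyperelementary H := by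
  obtain ⟨p, hp, C, hCn, hcyc, hdvd, k, hk⟩ := hK
  refine ⟨p, hp, C.comap f, hCn.comap f, ?_, ?_, ?_⟩
  · exact isCyclic_of_injective (f.subgroupComap C) (subgroupComap_inj f hf C)
  · intro h
    exact hdvd (h.trans (Subgroup.card_dvd_of_injective (f.subgroupComap C)
      (subgroupComap_inj f hf C)))
  · have h1 : (C.comap f).index ∣ C.index := by
      rw [Subgroup.index_comap]
      exact Subgroup.relIndex_dvd_index_of_normal C f.range
    rw [hk] at h1
    obtain ⟨j, _, hj⟩ := (Nat.dvd_prime_pow hp).1 h1
    exact ⟨j, hj⟩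

theorem IsHyperelementary.of_le {G : Type*} [Group G] {H K : Subgroup G} (h : H ≤ K)
    (hK : IsHyperelementary K) : IsHyperelementary H :=
  hK.of_injective (Subgroup.inclusion h) (Subgroup.inclusion_injective h)

/-- Number of fixed points. -/
noncomputable def fixc {G : Type*} [Group G] (X : Type*) [MulAction G X] (g : G) : ℤ :=
  (Nat.card {x : X // g • x = x} : ℤ)

theorem mem_orbit_out {G : Type*} [Group G] {X : Type*} [MulAction G X] (x : X) :
    x ∈ orbit G (Quotient.mk'' x : orbitRel.Quotient G X).out := by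
  have h2 : (Quotient.mk'' (Quotient.mk'' x : orbitRel.Quotient G X).out :
      orbitRel.Quotient G X) = Quotient.mk'' x := by simp
  exact Quotient.exact' h2.symm

theorem fixc_eq_sum {G : Type*} [Group G] (X : Type*) [MulAction G X] [Finite X]
    [Fintype (orbitRel.Quotient G X)] (g : G) :
    fixc X g = ∑ ω : orbitRel.Quotient G X, fixc (G ⧸ stabilizer G ω.out) g := by
  let Φ : (Σ ω : orbitRel.Quotient G X, G ⧸ stabilizer G ω.out) → X :=
    fun z => ofQuotientStabilizer G z.1.out z.2
  have hΦ : Function.Bijective Φ := by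
    constructor
    · rintro ⟨ω, q⟩ ⟨ω', q'⟩ h
      have h0 : ofQuotientStabilizer G ω.out q = ofQuotientStabilizer G ω'.out q' := h
      have hω : ω = ω' := by
        induction q using QuotientGroup.induction_on with
        | H a =>
          induction q' using QuotientGroup.induction_on with
          | H b =>
            simp only [ofQuotientStabilizer_mk] at h0
            have h1 : (Quotient.mk'' ω.out : orbitRel.Quotient G X) = Quotient.mk'' ω'.out := by
              apply Quotient.sound'
              change ω.out ∈ orbit G ω'.out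
              refine ⟨a⁻¹ * b, ?_⟩
              change (a⁻¹ * b) • ω'.out = ω.out
              rw [mul_smul, ← h0, inv_smul_smul]
            simpa using h1
      subst hω
      have := injective_ofQuotientStabilizer G ω.out h0
      rw [this]
    · intro x
      exact ⟨⟨Quotient.mk'' x, QuotientGroup.mk (Classical.choose (mem_orbit_out (G := G) x))⟩,
        Classical.choose_spec (mem_orbit_out (G := G) x)⟩
  have e1 : {z : (Σ ω : orbitRel.Quotient G X, G ⧸ stabilizer G ω.out) // g • z.2 = z.2} ≃
      {x : X // g • x = x} := by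
    refine (Equiv.ofBijective Φ hΦ).subtypeEquiv ?_
    rintro ⟨ω, q⟩
    change g • q = q ↔ g • ofQuotientStabilizer G ω.out q = ofQuotientStabilizer G ω.out q
    rw [← ofQuotientStabilizer_smul]
    exact ⟨fun h => by rw [h], fun h => injective_ofQuotientStabilizer G ω.out h⟩
  have e2 : {z : (Σ ω : orbitRel.Quotient G X, G ⧸ stabilizer G ω.out) // g • z.2 = z.2} ≃
      (Σ ω : orbitRel.Quotient G X, {q : G ⧸ stabilizer G ω.out // g • q = q}) :=
    { toFun := fun z => ⟨z.1.1, z.1.2, z.2⟩
      invFun := fun z => ⟨⟨z.1, z.2.1⟩, z.2.2⟩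
      left_inv := fun _ => rfl
      right_inv := fun _ => rfl }
  have : Finite (Σ ω : orbitRel.Quotient G X, G ⧸ stabilizer G ω.out) :=
    Finite.of_injective Φ hΦ.1
  have : ∀ ω : orbitRel.Quotient G X, Finite {q : G ⧸ stabilizer G ω.out // g • q = q} := by
    intro ω
    refine Finite.of_injective
      (fun q => (⟨ω, q.1⟩ : Σ ω : orbitRel.Quotient G X, G ⧸ stabilizer G ω.out)) ?_
    intro a b hab
    have := Sigma.mk.inj_iff.1 hab
    exact Subtype.ext (eq_of_heq this.2)
  unfold fixc
  rw [← Nat.card_congr e1, Nat.card_congr e2, Nat.card_sigma]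
  push_cast
  rfl

/-- The additive group generated by the permutation characters of hyperelementary cosets. -/
def HR (G : Type*) [Group G] : Submodule ℤ (G → ℤ) :=
  Submodule.span ℤ {f | ∃ H : Subgroup G, IsHyperelementary H ∧ f = fun g : G => fixc (G ⧸ H) g}

theorem gset_mem {G : Type*} [Group G] (X : Type*) [MulAction G X] [Finite X]
    (hX : ∀ x : X, IsHyperelementary (stabilizer G x)) : (fun g : G => fixc X g) ∈ HR G := by
  classical
  have : Finite (orbitRel.Quotient G X) := Quotient.finite _
  have := Fintype.ofFinite (orbitRel.Quotient G X)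
  have h : (fun g : G => fixc X g) =
      ∑ ω : orbitRel.Quotient G X, (fun g : G => fixc (G ⧸ stabilizer G ω.out) g) := by
    funext g
    rw [fixc_eq_sum, Finset.sum_apply]
  rw [h]
  exact Submodule.sum_mem _ fun ω _ => Submodule.subset_span ⟨_, hX _, rfl⟩

theorem fixc_prod {G : Type*} [Group G] (X Y : Type*) [MulAction G X] [MulAction G Y]
    (g : G) : fixc (X × Y) g = fixc X g * fixc Y g := by
  unfold fixc
  have e : {z : X × Y // g • z = z} ≃ {x : X // g • x = x} × {y : Y // g • y = y} :=
    { toFun := fun z => (⟨z.1.1, congrArg Prod.fst z.2⟩, ⟨z.1.2, congrArg Prod.snd z.2⟩)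
      invFun := fun z => ⟨(z.1.1, z.2.1), Prod.ext z.1.2 z.2.2⟩
      left_inv := fun _ => rfl
      right_inv := fun _ => rfl }
  rw [Nat.card_congr e, Nat.card_prod]
  push_cast
  rfl

theorem HR_mul {G : Type*} [Group G] [Finite G] {f f' : G → ℤ} (hf : f ∈ HR G)
    (hf' : f' ∈ HR G) : f * f' ∈ HR G := by
  induction hf using Submodule.span_induction with
  | mem x hx =>
    obtain ⟨H, hH, rfl⟩ := hx
    induction hf' using Submodule.span_induction with
    | mem y hy =>
      obtain ⟨K, hK, rfl⟩ := hy
      have h1 : ((fun g : G => fixc (G ⧸ H) g) * fun g : G => fixc (G ⧸ K) g) =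
          fun g : G => fixc ((G ⧸ H) × (G ⧸ K)) g := by
        funext g
        rw [fixc_prod]
        rfl
      rw [h1]
      refine gset_mem _ ?_
      rintro ⟨q, r⟩
      induction q using QuotientGroup.induction_on with
      | H a =>
        refine hH.of_injective
          (MonoidHom.codRestrict
            (((MulAut.conj a⁻¹).toMonoidHom).comp (stabilizer G ((a : G ⧸ H), r)).subtype) H ?_) ?_
        · rintro ⟨x, hx⟩
          have h2 : x • (a : G ⧸ H) = (a : G ⧸ H) := congrArg Prod.fst hx
          have h3 : ((x * a : G) : G ⧸ H) = (a : G ⧸ H) := h2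
          have h4 := QuotientGroup.eq.1 h3.symm
          change a⁻¹ * x * a⁻¹⁻¹ ∈ H
          rw [inv_inv, mul_assoc]
          exact h4
        · intro x y hxy
          have h5 : a⁻¹ * x.1 * a⁻¹⁻¹ = a⁻¹ * y.1 * a⁻¹⁻¹ := congrArg Subtype.val hxy
          apply Subtype.ext
          exact mul_left_cancel (mul_right_cancel h5)
    | zero => simp
    | add y z _ _ hy hz => rw [mul_add]; exact (HR G).add_mem hy hz
    | smul a y _ hy => rw [mul_smul_comm]; exact (HR G).smul_mem a hy
  | zero => simp
  | add y z _ _ hy hz => rw [add_mul]; exact (HR G).add_mem hy hz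
  | smul a y _ hy => rw [smul_mul_assoc]; exact (HR G).smul_mem a hy

/-- Banaschewski's lemma for `HR`. -/
theorem one_mem_of {G : Type*} [Group G] [Finite G]
    (h : ∀ (x : G) (p : ℕ), p.Prime → ∃ f ∈ HR G, ¬ (p : ℤ) ∣ f x) : (1 : G → ℤ) ∈ HR G := by
  classical
  have := Fintype.ofFinite G
  -- for every x some f in HR with f x = 1
  have h1 : ∀ x : G, ∃ f ∈ HR G, f x = 1 := by
    intro x
    let I : Submodule ℤ ℤ := (HR G).map (LinearMap.proj x)
    have hI : I = ⊤ := by
      by_contra hne
      obtain ⟨n, hn⟩ : ∃ n : ℤ, I = Ideal.span {n} := by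
        have := IsPrincipalIdealRing.principal (I : Ideal ℤ)
        obtain ⟨n, hn⟩ := this.principal
        exact ⟨n, hn⟩
      have hn1 : n.natAbs ≠ 1 := by
        intro h1
        apply hne
        rw [hn, Ideal.span_singleton_eq_top]
        exact Int.isUnit_iff_natAbs_eq.2 h1
      obtain ⟨p, hp, hpn⟩ := Nat.exists_prime_and_dvd hn1
      obtain ⟨f, hf, hfx⟩ := h x p hp
      apply hfx
      have h2 : f x ∈ I := ⟨f, hf, rfl⟩
      rw [hn, Ideal.mem_span_singleton] at h2
      exact (Int.natCast_dvd.2 hpn).trans h2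
    have h3 : (1 : ℤ) ∈ I := by rw [hI]; trivial
    obtain ⟨f, hf, hfx⟩ := h3
    exact ⟨f, hf, hfx⟩
  choose F hF hFx using h1
  -- product of (1 - F x) over any finset s differs from 1 by an element of HR
  have h2 : ∀ s : Finset G, 1 - ∏ x ∈ s, (1 - F x) ∈ HR G := by
    intro s
    induction s using Finset.induction_on with
    | empty => simp
    | insert a s ha ih =>
      rw [Finset.prod_insert ha]
      have h3 : (1 : G → ℤ) - (1 - F a) * ∏ x ∈ s, (1 - F x) =
          (1 - ∏ x ∈ s, (1 - F x)) + (F a - F a * (1 - ∏ x ∈ s, (1 - F x))) := by ring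
      rw [h3]
      exact (HR G).add_mem ih ((HR G).sub_mem (hF a) (HR_mul (hF a) ih))
  have h4 : ∏ x : G, (1 - F x) = 0 := by
    funext g
    rw [Finset.prod_apply]
    exact Finset.prod_eq_zero (Finset.mem_univ g) (by simp [hFx])
  have h5 := h2 Finset.univ
  rw [h4, sub_zero] at h5
  exact h5

/-- For every element `x` and prime `p` there is a hyperelementary subgroup `H` such that the
number of fixed points of `x` on the cosets of `H` is not divisible by `p`. -/
theorem exists_not_dvd {G : Type*} [Group G] [Finite G] (x : G) (p : ℕ) (hp : p.Prime) :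
    ∃ f ∈ HR G, ¬ (p : ℤ) ∣ f x := by
  classical
  have : Fact p.Prime := ⟨hp⟩
  obtain ⟨a, m, hm, hxm⟩ := Nat.exists_eq_pow_mul_and_not_dvd (orderOf_pos x).ne' p hp.ne_one
  -- the cyclic subgroup of order m
  set C : Subgroup G := Subgroup.zpowers (x ^ p ^ a) with hC
  have hCcard : Nat.card C = m := by
    rw [hC, Nat.card_zpowers, orderOf_pow, hxm, Nat.gcd_eq_right (Dvd.intro m rfl),
      Nat.mul_div_cancel_left _ (pow_pos hp.pos a)]
  set N : Subgroup G := Subgroup.normalizer (C : Set G) with hN
  set y : G := x ^ p ^ a with hy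
  have hym : y ^ m = 1 := by
    rw [hy, ← pow_mul, ← hxm, pow_orderOf_eq_one]
  have hxN : x ∈ N := by
    rw [hN, Subgroup.mem_normalizer_iff_map_conj_eq, hC, MonoidHom.map_zpowers]
    congr 1
    change x * y * x⁻¹ = y
    rw [hy, (Commute.self_pow x (p ^ a)).eq, mul_inv_cancel_right]
  set C' : Subgroup N := C.subgroupOf N with hC'
  have hC'n : C'.Normal := Subgroup.normal_in_normalizer
  set xN : N := ⟨x, hxN⟩ with hxNdef
  have hxNpow : xN ^ p ^ a ∈ C' := by
    rw [hC', Subgroup.mem_subgroupOf]
    change x ^ p ^ a ∈ C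
    exact Subgroup.mem_zpowers _
  set π : N →* N ⧸ C' := QuotientGroup.mk' C' with hπ
  have hπs : Function.Surjective π := QuotientGroup.mk'_surjective C'
  have hpg : IsPGroup p (Subgroup.zpowers (π xN)) := by
    rintro ⟨z, j, hz⟩
    refine ⟨a, Subtype.ext ?_⟩
    have hz' : (π xN) ^ j = z := hz
    have hπ1 : (π xN) ^ p ^ a = 1 := by
      rw [← map_pow]
      exact (QuotientGroup.eq_one_iff (N := C') _).2 hxNpow
    change z ^ p ^ a = 1
    rw [← hz', ← zpow_natCast, ← zpow_mul, mul_comm, zpow_mul, zpow_natCast, hπ1, one_zpow]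
  obtain ⟨P, hP⟩ := hpg.exists_le_sylow
  set H' : Subgroup N := (P : Subgroup (N ⧸ C')).comap π with hH'
  have hCH' : C' ≤ H' := by
    intro c hc
    have hπc : π c = 1 := (QuotientGroup.eq_one_iff (N := C') c).2 hc
    rw [hH', Subgroup.mem_comap, hπc]
    exact one_mem _
  have hind : ¬ p ∣ H'.index := by
    rw [hH', Subgroup.index_comap_of_surjective _ hπs]
    exact P.not_dvd_index
  have hxH' : xN ∈ H' := by
    rw [hH', Subgroup.mem_comap]
    exact hP (Subgroup.mem_zpowers _)
  have hC'card : Nat.card C' = m := by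
    rw [hC', ← hCcard]
    exact Nat.card_congr (Subgroup.subgroupOfEquivOfLe Subgroup.le_normalizer).toEquiv
  -- H' is hyperelementary
  have hhyp' : IsHyperelementary H' := by
    refine ⟨p, hp, C'.subgroupOf H', inferInstance, ?_, ?_, ?_⟩
    · have : IsCyclic C := by rw [hC]; infer_instance
      refine isCyclic_of_injective
        (((Subgroup.subgroupOfEquivOfLe (H := C) (K := N) Subgroup.le_normalizer).toMonoidHom).comp
          ((Subgroup.subgroupOfEquivOfLe hCH').toMonoidHom)) ?_
      intro u v huv
      exact (Subgroup.subgroupOfEquivOfLe hCH').injective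
        ((Subgroup.subgroupOfEquivOfLe (H := C) (K := N) Subgroup.le_normalizer).injective huv)
    · rw [Nat.card_congr (Subgroup.subgroupOfEquivOfLe hCH').toEquiv, hC'card]
      exact hm
    · have hker : (π.comp H'.subtype).ker = C'.subgroupOf H' := by
        ext z
        rw [MonoidHom.mem_ker, Subgroup.mem_subgroupOf]
        exact QuotientGroup.eq_one_iff (N := C') (z : N)
      have hrange : (π.comp H'.subtype).range = (P : Subgroup (N ⧸ C')) := by
        ext z
        constructor
        · rintro ⟨w, rfl⟩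
          exact w.2
        · intro hz
          obtain ⟨w, rfl⟩ := hπs z
          exact ⟨⟨w, hz⟩, rfl⟩
      obtain ⟨k, hk⟩ := (IsPGroup.iff_card).1 P.isPGroup'
      refine ⟨k, ?_⟩
      rw [← hker, Subgroup.index_ker, hrange]
      exact hk
  set H : Subgroup G := H'.map N.subtype with hH
  have hhyp : IsHyperelementary H :=
    hhyp'.of_injective (H'.equivMapOfInjective N.subtype N.subtype_injective).symm.toMonoidHom
      (MulEquiv.injective _)
  have hmemH : ∀ n : N, (n : G) ∈ H ↔ n ∈ H' := by
    intro n
    rw [hH]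
    exact Subgroup.mem_map_iff_mem N.subtype_injective
  have hHN : ∀ g ∈ H, g ∈ N := by
    intro g hg
    rw [hH] at hg
    obtain ⟨n, _, rfl⟩ := hg
    exact n.2
  refine ⟨fun g => fixc (G ⧸ H) g, Submodule.subset_span ⟨H, hhyp, rfl⟩, ?_⟩
  -- comparison of the fixed points
  have hnorm : ∀ g : G, g⁻¹ * x * g ∈ H → g ∈ N := by
    intro g hg
    have h1 : (g⁻¹ * x * g) ^ p ^ a = g⁻¹ * y * g := by
      have := conj_pow (i := p ^ a) (a := g⁻¹) (b := x)
      rw [inv_inv] at this
      exact this
    have h2 : g⁻¹ * y * g ∈ H := h1 ▸ H.pow_mem hg _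
    have h3 : g⁻¹ * y * g ∈ C := by
      set n : N := ⟨g⁻¹ * y * g, hHN _ h2⟩ with hn
      have h4 : n ∈ H' := (hmemH n).1 h2
      have h5 : π n ∈ (P : Subgroup (N ⧸ C')) := h4
      obtain ⟨k, hk⟩ := P.isPGroup' ⟨π n, h5⟩
      have hk' : (π n) ^ p ^ k = 1 := congrArg Subtype.val hk
      have h6 : n ^ m = 1 := by
        apply Subtype.ext
        change (g⁻¹ * y * g) ^ m = 1
        have := conj_pow (i := m) (a := g⁻¹) (b := y)
        rw [inv_inv] at this
        rw [this, hym]
        simp
      have h7 : (π n) ^ m = 1 := by rw [← map_pow, h6, map_one]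
      have h8 : orderOf (π n) ∣ Nat.gcd (p ^ k) m :=
        Nat.dvd_gcd (orderOf_dvd_of_pow_eq_one hk') (orderOf_dvd_of_pow_eq_one h7)
      have h9 : Nat.gcd (p ^ k) m = 1 :=
        Nat.Coprime.pow_left k ((Nat.Prime.coprime_iff_not_dvd hp).2 hm)
      rw [h9, Nat.dvd_one, orderOf_eq_one_iff] at h8
      exact (QuotientGroup.eq_one_iff (N := C') n).1 h8
    have h4 : C.map (MulAut.conj g⁻¹).toMonoidHom ≤ C := by
      rw [hC, MonoidHom.map_zpowers, Subgroup.zpowers_le]
      change g⁻¹ * y * g⁻¹⁻¹ ∈ C
      rw [inv_inv]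
      exact h3
    have h5 : C.map (MulAut.conj g⁻¹).toMonoidHom = C := by
      apply Subgroup.eq_of_le_of_card_ge h4
      rw [Nat.card_congr (C.equivMapOfInjective (MulAut.conj g⁻¹).toMonoidHom
        (MulEquiv.injective _)).toEquiv]
    have h6 : g⁻¹ ∈ N := by
      rw [hN, Subgroup.mem_normalizer_iff_map_conj_eq]
      exact h5
    exact inv_inv g ▸ N.inv_mem h6
  have hcard : Nat.card {q : G ⧸ H // x • q = q} = Nat.card {q : N ⧸ H' // xN • q = q} := by
    let φ : N ⧸ H' → G ⧸ H :=
      Quotient.map' (fun n : N => (n : G)) (by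
        intro n n' h
        rw [QuotientGroup.leftRel_apply] at h ⊢
        exact (hmemH (n⁻¹ * n')).2 h)
    have hφ : ∀ n : N, φ (n : N ⧸ H') = ((n : G) : G ⧸ H) := fun n => rfl
    have hφi : Function.Injective φ := by
      intro q r hqr
      induction q using QuotientGroup.induction_on with
      | H u =>
        induction r using QuotientGroup.induction_on with
        | H v =>
          rw [hφ, hφ, QuotientGroup.eq] at hqr
          rw [QuotientGroup.eq]
          exact (hmemH (u⁻¹ * v)).1 hqr
    have hφs : ∀ q : N ⧸ H', φ (xN • q) = x • φ q := by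
      intro q
      induction q using QuotientGroup.induction_on with
      | H u => rfl
    symm
    refine Nat.card_congr (Equiv.ofBijective
      (fun q : {q : N ⧸ H' // xN • q = q} =>
        (⟨φ q.1, by rw [← hφs, q.2]⟩ : {q : G ⧸ H // x • q = q})) ⟨?_, ?_⟩)
    · intro q r hqr
      exact Subtype.ext (hφi (congrArg Subtype.val hqr))
    · rintro ⟨q, hq⟩
      induction q using QuotientGroup.induction_on with
      | H g =>
        have h1 : ((x * g : G) : G ⧸ H) = (g : G ⧸ H) := hq
        have h2 : g⁻¹ * (x * g) ∈ H := QuotientGroup.eq.1 h1.symm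
        rw [← mul_assoc] at h2
        have hgN := hnorm g h2
        refine ⟨⟨((⟨g, hgN⟩ : N) : N ⧸ H'), ?_⟩, ?_⟩
        · apply hφi
          rw [hφs, hφ]
          exact hq
        · exact Subtype.ext (hφ _)
  intro hdvd
  have hdvd' : p ∣ Nat.card {q : N ⧸ H' // xN • q = q} := by
    rw [← hcard]
    exact Int.natCast_dvd_natCast.1 hdvd
  have : Fintype (N ⧸ H') := Fintype.ofFinite _
  let f : Function.End (N ⧸ H') := fun q => xN • q
  have hf : f ^ p ^ a = 1 := by
    have hpow : ∀ (j : ℕ) (q : N ⧸ H'), (f ^ j) q = xN ^ j • q := by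
      intro j
      induction j with
      | zero => intro q; simp; rfl
      | succ j ih =>
        intro q
        rw [pow_succ, pow_succ, mul_smul]
        exact ih _
    funext q
    rw [hpow]
    change xN ^ p ^ a • q = q
    induction q using QuotientGroup.induction_on with
    | H u =>
      have h3 : u⁻¹ * (xN ^ p ^ a) * u ∈ C' := by
        have := hC'n.conj_mem _ hxNpow u⁻¹
        rwa [inv_inv] at this
      have h4 : ((xN ^ p ^ a * u : N) : N ⧸ H') = (u : N ⧸ H') := by
        symm
        rw [QuotientGroup.eq, ← mul_assoc]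
        exact hCH' h3
      exact h4
  have hmod := Equiv.Perm.card_fixedPoints_modEq (f := f) (p := p) (n := a) hf
  have hc1 : Fintype.card (N ⧸ H') = H'.index := by
    rw [Subgroup.index, Nat.card_eq_fintype_card]
  have hc2 : Fintype.card (Function.fixedPoints f) =
      Nat.card {q : N ⧸ H' // xN • q = q} := by
    rw [← Nat.card_eq_fintype_card]
    rfl
  rw [hc1, hc2] at hmod
  exact hind ((Nat.modEq_zero_iff_dvd).1 (hmod.trans ((Nat.modEq_zero_iff_dvd).2 hdvd')))

/-- Solomon's induction theorem. -/
theorem solomon (G : Type*) [Group G] [Finite G] :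
    ∃ (T : Finset (Subgroup G)) (n : Subgroup G → ℤ), (∀ H ∈ T, IsHyperelementary H) ∧
      ∀ g : G, ∑ H ∈ T, n H * (Nat.card {x : G ⧸ H // g • x = x} : ℤ) = 1 := by
  classical
  have h : ∀ f ∈ HR G, ∃ (T : Finset (Subgroup G)) (n : Subgroup G → ℤ),
      (∀ H ∈ T, IsHyperelementary H) ∧ ∀ g : G, ∑ H ∈ T, n H * fixc (G ⧸ H) g = f g := by
    intro f hf
    induction hf using Submodule.span_induction with
    | mem f hf =>
      obtain ⟨H, hH, rfl⟩ := hf
      refine ⟨{H}, fun _ => 1, ?_, ?_⟩
      · intro K hK
        rw [Finset.mem_singleton] at hK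
        subst hK
        exact hH
      · intro g
        simp
    | zero => exact ⟨∅, fun _ => 0, by simp, by simp⟩
    | add f f' _ _ ih ih' =>
      obtain ⟨T, n, hT, hn⟩ := ih
      obtain ⟨T', n', hT', hn'⟩ := ih'
      refine ⟨T ∪ T', fun H => (if H ∈ T then n H else 0) + (if H ∈ T' then n' H else 0), ?_, ?_⟩
      · intro H hH
        rcases Finset.mem_union.1 hH with h1 | h1
        · exact hT H h1
        · exact hT' H h1
      · intro g
        simp only [add_mul, Finset.sum_add_distrib, ite_mul, zero_mul]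
        rw [Finset.sum_ite_mem, Finset.sum_ite_mem, Finset.union_inter_cancel_left,
          Finset.union_inter_cancel_right, hn, hn']
        rfl
    | smul c f _ ih =>
      obtain ⟨T, n, hT, hn⟩ := ih
      refine ⟨T, fun H => c * n H, hT, ?_⟩
      intro g
      simp only [mul_assoc]
      rw [← Finset.mul_sum, hn]
      rfl
  obtain ⟨T, n, hT, hn⟩ := h 1 (one_mem_of exists_not_dvd)
  exact ⟨T, n, hT, hn⟩

/-- PART 1: Solomon's induction theorem in the form of `Defs`. -/
theorem solomon_S : Pool.Agent.MP_0d9be2.Solomon_S := by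
  intro G _ _
  obtain ⟨T, n, hT, hn⟩ := solomon G
  refine ⟨T, n, ?_, hn⟩
  intro H hH
  obtain ⟨p, hp, C, hCn, hcyc, hdvd, hk⟩ := hT H hH
  exact ⟨p, C, hp, hCn, hcyc, (Nat.Prime.coprime_iff_not_dvd hp).2 hdvd, hk⟩

end Pool.Agent.Lib.MP_0d9be2_nt
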